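import Mathlib

/-!
The easy half of the Kuratowski–Ulam theorem and some facts on open maps between products.
-/

namespace Run7.h185.KurUlam

open Topology Filter Set

/-- Kuratowski–Ulam for residual sets. -/
lemma eventually_residual_prod {A B : Type} [TopologicalSpace A] [TopologicalSpace B]
    [SecondCountableTopology B] {C : Set (A × B)} (hC : C ∈ residual (A × B)) :
    ∀ᶠ a in residual A, {b | (a, b) ∈ C} ∈ residual B := by
  obtain ⟨S, hSo, hSd, hSc, hSC⟩ := mem_residual_iff.mp hC
  have key : ∀ t ∈ S, ∀ᶠ a in residual A, {b | (a, b) ∈ t} ∈ residual B := by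
    intro t ht
    have h1 : ∀ V ∈ TopologicalSpace.countableBasis B,
        ∀ᶠ a in residual A, ∃ b ∈ V, (a, b) ∈ t := by
      intro V hV
      have hVo : IsOpen V := TopologicalSpace.isOpen_of_mem_countableBasis hV
      have hVne : V.Nonempty := TopologicalSpace.nonempty_of_mem_countableBasis hV
      have : {a | ∃ b ∈ V, (a, b) ∈ t} = Prod.fst '' (t ∩ (univ ×ˢ V)) := by
        ext a
        simp only [mem_ofPred_eq, mem_image, mem_inter_iff, mem_prod, mem_univ, true_and,
          Prod.exists, exists_and_right, exists_eq_right]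
        constructor
        · rintro ⟨b, hb, hab⟩; exact ⟨b, hab, hb⟩
        · rintro ⟨b, hab, hb⟩; exact ⟨b, hb, hab⟩
      change {a | ∃ b ∈ V, (a, b) ∈ t} ∈ residual A
      rw [this]
      apply residual_of_dense_open
      · exact isOpenMap_fst _ ((hSo t ht).inter (isOpen_univ.prod hVo))
      · rw [dense_iff_inter_open]
        intro U hU hUne
        obtain ⟨x, hx⟩ := (hSd t ht).inter_open_nonempty (U ×ˢ V) (hU.prod hVo) (hUne.prod hVne)
        exact ⟨x.1, hx.1.1, ⟨x, ⟨hx.2, mem_univ _, hx.1.2⟩, rfl⟩⟩
    have h2 : ∀ᶠ a in residual A, ∀ V ∈ TopologicalSpace.countableBasis B,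
        ∃ b ∈ V, (a, b) ∈ t :=
      (eventually_countable_ball (TopologicalSpace.countable_countableBasis B)).mpr h1
    filter_upwards [h2] with a ha
    apply residual_of_dense_open
    · exact (hSo t ht).preimage (by fun_prop)
    · rw [dense_iff_inter_open]
      rintro O hO ⟨y, hy⟩
      obtain ⟨V, hV, hyV, hVO⟩ :=
        (TopologicalSpace.isBasis_countableBasis B).exists_subset_of_mem_open hy hO
      obtain ⟨b, hb, hab⟩ := ha V hV
      exact ⟨b, hVO hb, hab⟩
  have h3 : ∀ᶠ a in residual A, ∀ t ∈ S, {b | (a, b) ∈ t} ∈ residual B :=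
    (eventually_countable_ball hSc).mpr key
  filter_upwards [h3] with a ha
  have h4 : {b | ∀ t ∈ S, (a, b) ∈ t} ∈ residual B :=
    (eventually_countable_ball hSc).mpr ha
  filter_upwards [h4] with b hb
  exact hSC (mem_sInter.mpr hb)

/-- coordinatewise combination of two functions through open surjections is an open map -/
lemma isOpenMap_comb {ι A B W : Type} [TopologicalSpace A] [TopologicalSpace B]
    [TopologicalSpace W] (p : ι → A × B → W) (ho : ∀ i, IsOpenMap (p i))
    (hs : ∀ i, Function.Surjective (p i)) :
    IsOpenMap (fun x : (ι → A) × (ι → B) => fun i => p i (x.1 i, x.2 i)) := by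
  let e : (ι → A) × (ι → B) ≃ₜ (ι → A × B) :=
    { toFun := fun x i => (x.1 i, x.2 i)
      invFun := fun x => (fun i => (x i).1, fun i => (x i).2)
      left_inv := fun x => rfl
      right_inv := fun x => rfl
      continuous_toFun := by fun_prop
      continuous_invFun := by fun_prop }
  have h1 : IsOpenMap (Pi.map p) := IsOpenMap.piMap ho (Eventually.of_forall hs)
  exact h1.comp e.isOpenMap

lemma continuous_comb {ι A B W : Type} [TopologicalSpace A] [TopologicalSpace B]
    [TopologicalSpace W] (p : ι → A × B → W) (hc : ∀ i, Continuous (p i)) :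
    Continuous (fun x : (ι → A) × (ι → B) => fun i => p i (x.1 i, x.2 i)) := by
  apply continuous_pi
  intro i
  exact (hc i).comp (by fun_prop)

end Run7.h185.KurUlam
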