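import Mathlib
import Pool.Agent.Run7.h185.KurUlam

/-!
Group jumps of equivalence relations.
-/

namespace Run7.h185.GJump

open Topology Filter Set

/-- the `G`-jump of `E` -/
def jump (G : Type) [Group G] {X : Type} (E : X → X → Prop) (α β : G → X) : Prop :=
  ∃ g : G, ∀ h : G, E (α (g⁻¹ * h)) (β h)

/-- the shift of `w` by `g` -/
def sh {G X : Type} [Group G] (g : G) (w : G → X) : G → X := fun x => w (g⁻¹ * x)

section basics

variable {G : Type} [Group G] {X : Type}

lemma sh_one (w : G → X) : sh 1 w = w := by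
  funext x; simp [sh]

lemma sh_mul (g h : G) (w : G → X) : sh (g * h) w = sh g (sh h w) := by
  funext x; simp [sh, mul_assoc]

lemma jump_eq_iff (α β : G → X) : jump G (Eq : X → X → Prop) α β ↔ ∃ g, sh g α = β := by
  unfold jump sh
  constructor
  · rintro ⟨g, hg⟩; exact ⟨g, funext hg⟩
  · rintro ⟨g, hg⟩; exact ⟨g, fun h => congrFun hg h⟩

variable [TopologicalSpace X]

lemma continuous_sh (g : G) : Continuous (sh g : (G → X) → (G → X)) := by
  unfold sh
  exact continuous_pi fun x => continuous_apply _

/-- the shift as a homeomorphism -/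
def shHomeo (g : G) : (G → X) ≃ₜ (G → X) where
  toFun := sh g
  invFun := sh g⁻¹
  left_inv w := by rw [← sh_mul, inv_mul_cancel, sh_one]
  right_inv w := by rw [← sh_mul, mul_inv_cancel, sh_one]
  continuous_toFun := continuous_sh g
  continuous_invFun := continuous_sh g⁻¹

lemma isOpenMap_sh (g : G) : IsOpenMap (sh g : (G → X) → (G → X)) := (shHomeo g).isOpenMap

lemma surjective_sh (g : G) : Function.Surjective (sh g : (G → X) → (G → X)) :=
  (shHomeo g).surjective

end basics

section bernoulli

variable {G : Type} [Group G] [Infinite G]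

/-- a nonempty open set of `2^G` contains a cylinder -/
lemma exists_cylinder {A : Set (G → Bool)} (hA : IsOpen A) {a : G → Bool} (ha : a ∈ A) :
    ∃ T : Finset G, ∀ w : G → Bool, (∀ x ∈ T, w x = a x) → w ∈ A := by
  obtain ⟨I, u, hu, hsub⟩ := isOpen_pi_iff.mp hA a ha
  refine ⟨I, fun w hw => hsub ?_⟩
  intro x hx
  rw [hw x hx]
  exact (hu x hx).2

/-- topological transitivity of the Bernoulli shift of an infinite group -/
lemma transitive {A B : Set (G → Bool)} (hA : IsOpen A) (hAne : A.Nonempty) (hB : IsOpen B)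
    (hBne : B.Nonempty) : ∃ g : G, ∃ w ∈ A, sh g w ∈ B := by
  classical
  obtain ⟨a, ha⟩ := hAne
  obtain ⟨b, hb⟩ := hBne
  obtain ⟨S, hS⟩ := exists_cylinder hA ha
  obtain ⟨T, hT⟩ := exists_cylinder hB hb
  -- choose `g` with `g⁻¹ T ∩ S = ∅`
  obtain ⟨g, hg⟩ := Infinite.exists_notMem_finset
    ((T ×ˢ S).image fun p : G × G => p.1 * p.2⁻¹)
  refine ⟨g, fun x => if x ∈ S then a x else b (g * x), ?_, ?_⟩
  · apply hS
    intro x hx
    simp [hx]
  · apply hT
    intro x hx
    have hns : g⁻¹ * x ∉ S := by
      intro hmem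
      apply hg
      rw [Finset.mem_image]
      exact ⟨(x, g⁻¹ * x), Finset.mem_product.mpr ⟨hx, hmem⟩, by simp⟩
    simp [sh, hns]

/-- a generic point of `2^G` has a dense orbit -/
lemma dense_orbit [Countable G] : ∀ᶠ w in residual (G → Bool),
    ∀ B : Set (G → Bool), IsOpen B → B.Nonempty → ∃ g : G, sh g w ∈ B := by
  have h1 : ∀ V ∈ TopologicalSpace.countableBasis (G → Bool),
      ∀ᶠ w in residual (G → Bool), ∃ g : G, sh g w ∈ V := by
    intro V hV
    have hVo : IsOpen V := TopologicalSpace.isOpen_of_mem_countableBasis hV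
    have hVne : V.Nonempty := TopologicalSpace.nonempty_of_mem_countableBasis hV
    have : {w | ∃ g : G, sh g w ∈ V} = ⋃ g : G, sh g ⁻¹' V := by ext w; simp
    change {w | ∃ g : G, sh g w ∈ V} ∈ residual _
    rw [this]
    apply residual_of_dense_open
    · exact isOpen_iUnion fun g => hVo.preimage (continuous_sh g)
    · rw [dense_iff_inter_open]
      intro U hU hUne
      obtain ⟨g, w, hwU, hwV⟩ := transitive hU hUne hVo hVne
      exact ⟨w, hwU, mem_iUnion.mpr ⟨g, hwV⟩⟩
  have h2 : ∀ᶠ w in residual (G → Bool), ∀ V ∈ TopologicalSpace.countableBasis (G → Bool),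
      ∃ g : G, sh g w ∈ V :=
    (eventually_countable_ball (TopologicalSpace.countable_countableBasis _)).mpr h1
  filter_upwards [h2] with w hw B hB hBne
  obtain ⟨y, hy⟩ := hBne
  obtain ⟨V, hV, hyV, hVB⟩ :=
    (TopologicalSpace.isBasis_countableBasis (G → Bool)).exists_subset_of_mem_open hy hB
  obtain ⟨g, hg⟩ := hw V hV
  exact ⟨g, hVB hg⟩

/-- a countable subset of `2^G` has residual complement -/
lemma countable_compl_residual {Q : Set (G → Bool)} (hQ : Q.Countable) :
    ∀ᶠ w in residual (G → Bool), w ∉ Q := by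
  have h1 : ∀ q ∈ Q, ∀ᶠ w in residual (G → Bool), w ≠ q := by
    intro q _
    apply residual_of_dense_open
    · exact isOpen_compl_singleton
    · classical
      rw [dense_iff_inter_open]
      rintro U hU ⟨u, hu⟩
      by_cases huq : u = q
      · obtain ⟨T, hT⟩ := exists_cylinder hU hu
        obtain ⟨g, hg⟩ := Infinite.exists_notMem_finset T
        refine ⟨fun x => if x = g then !(u x) else u x, hT _ ?_, ?_⟩
        · intro x hx
          have : x ≠ g := fun h => hg (h ▸ hx)
          simp [this]
        · intro h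
          have := congrFun (h : _ = q) g
          rw [← huq] at this
          simp at this
      · exact ⟨u, hu, huq⟩
  have h2 : ∀ᶠ w in residual (G → Bool), ∀ q ∈ Q, w ≠ q :=
    (eventually_countable_ball hQ).mpr h1
  filter_upwards [h2] with w hw hwQ
  exact hw w hwQ rfl

end bernoulli

end Run7.h185.GJump
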