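import Mathlib
import Pool.Agent.Run7.h185.KurUlam
import Pool.Agent.Run7.h185.GJump

/-!
The iterated jump `(Δ(2)^[G])^[H]` is not Borel reducible to the orbit equivalence relation of a
countable group shift.
-/

namespace Run7.h185.GJump

open Topology Filter Set KurUlam

section main

variable {G H K : Type} [Group G] [Infinite G] [Countable G] [Group H] [Infinite H] [Countable H]
  [Group K] [Countable K]

/-- on the finite set `S` use the translate of `α` by `s`, off `S` use `β` -/
noncomputable def mix (S : Finset H) (s : S → G) (p : (H → G → Bool) × (H → G → Bool)) :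
    H → G → Bool :=
  open Classical in
  fun h => if hS : h ∈ S then sh (s ⟨h, hS⟩) (p.1 h) else p.2 h

omit [Infinite G] [Infinite H] [Countable G] [Group H] [Countable H] in
lemma mix_open (S : Finset H) (s : S → G) : IsOpenMap (mix S s) := by
  classical
  have key := isOpenMap_comb (fun (h : H) (q : (G → Bool) × (G → Bool)) =>
        if hS : h ∈ S then sh (s ⟨h, hS⟩) q.1 else q.2) ?_ ?_
  · convert key using 1
    funext x i
    simp only [mix]
  · intro h
    by_cases hS : h ∈ S
    · simp only [hS, dite_true]
      exact (isOpenMap_sh _).comp isOpenMap_fst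
    · simp only [hS, dite_false]
      exact isOpenMap_snd
  · intro h
    by_cases hS : h ∈ S
    · simp only [hS, dite_true]
      exact (surjective_sh _).comp Prod.fst_surjective
    · simp only [hS, dite_false]
      exact Prod.snd_surjective

omit [Infinite G] [Infinite H] [Countable G] [Group H] [Countable H] in
lemma mix_continuous (S : Finset H) (s : S → G) : Continuous (mix S s) := by
  classical
  apply continuous_pi
  intro h
  unfold mix
  by_cases hS : h ∈ S
  · simp only [hS, dite_true]
    exact (continuous_sh _).comp (by fun_prop)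
  · simp only [hS, dite_false]
    fun_prop

/-- coordinatewise translation -/
def actAll (p : (H → G → Bool) × (H → G)) : H → G → Bool := fun h => sh (p.2 h) (p.1 h)

omit [Infinite G] [Infinite H] [Countable G] [Group H] [Countable H] in
lemma act_open [TopologicalSpace G] [DiscreteTopology G] :
    IsOpenMap (actAll : (H → G → Bool) × (H → G) → (H → G → Bool)) := by
  refine isOpenMap_comb (fun (_ : H) (q : (G → Bool) × G) => sh q.2 q.1) ?_ ?_
  · intro _ U hU
    have : (fun q : (G → Bool) × G => sh q.2 q.1) '' U
        = ⋃ g : G, sh g '' {w | (w, g) ∈ U} := by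
      ext w
      simp only [mem_image, Prod.exists, mem_iUnion, mem_ofPred_eq]
      constructor
      · rintro ⟨a, b, h1, h2⟩; exact ⟨b, a, h1, h2⟩
      · rintro ⟨b, a, h1, h2⟩; exact ⟨a, b, h1, h2⟩
    rw [this]
    exact isOpen_iUnion fun g => isOpenMap_sh g _ (hU.preimage (by fun_prop))
  · intro _ w
    exact ⟨(w, 1), sh_one w⟩

omit [Infinite G] [Infinite H] [Countable G] [Group H] [Countable H] in
lemma act_continuous [TopologicalSpace G] [DiscreteTopology G] :
    Continuous (actAll : (H → G → Bool) × (H → G) → (H → G → Bool)) := by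
  unfold actAll
  apply continuous_pi
  intro h
  have h1 : Continuous fun q : (G → Bool) × G => sh q.2 q.1 := by
    rw [continuous_prod_of_discrete_right]
    intro g
    exact continuous_sh g
  have h2 : Continuous fun x : (H → G → Bool) × (H → G) => (x.1 h, x.2 h) := by fun_prop
  exact h1.comp h2

omit [Infinite G] [Infinite H] [Countable G] [Countable H] in
/-- coordinatewise translates are equivalent -/
lemma jump_of_actAll (α : H → G → Bool) (γ : H → G) :
    jump H (jump G (Eq : Bool → Bool → Prop)) α (actAll (α, γ)) := by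
  refine ⟨1, fun h => ⟨γ h, fun x => ?_⟩⟩
  simp [actAll, sh]

/-- **Main theorem.** A Borel map on `(2^G)^H` which sends every class of the iterated jump
`(Δ(2)^[G])^[H]` to a countable set identifies two inequivalent points. -/
theorem no_countable {Y : Type} [TopologicalSpace Y] [SecondCountableTopology Y] [T1Space Y]
    [MeasurableSpace Y] [BorelSpace Y] [MeasurableSpace (H → G → Bool)]
    [BorelSpace (H → G → Bool)] (f : (H → G → Bool) → Y) (hf : Measurable f)
    (hc : ∀ α, {y | ∃ β, jump H (jump G (Eq : Bool → Bool → Prop)) α β ∧ f β = y}.Countable)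
    (hinj : ∀ α β, f α = f β → jump H (jump G (Eq : Bool → Bool → Prop)) α β) : False := by
  classical
  let _ : TopologicalSpace G := ⊥
  have _ : DiscreteTopology G := ⟨rfl⟩
  have _ : PolishSpace G := inferInstance
  -- a residual set on which `f` is continuous
  have hO : ∀ B ∈ TopologicalSpace.countableBasis Y, ∃ O : Set (H → G → Bool), IsOpen O ∧
      f ⁻¹' B =ᵇ O := fun B hB =>
    (hf (TopologicalSpace.isOpen_of_mem_countableBasis hB).measurableSet).residualEq_isOpen
  choose! O hOo hOe using hO
  set C : Set (H → G → Bool) :=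
    {α | ∀ B ∈ TopologicalSpace.countableBasis Y, (f α ∈ B ↔ α ∈ O B)} with hCdef
  have hC : C ∈ residual (H → G → Bool) := by
    refine (eventually_countable_ball (TopologicalSpace.countable_countableBasis Y)).mpr ?_
    intro B hB
    have := eventuallyEq_set.mp (hOe B hB)
    filter_upwards [this] with α hα
    exact hα
  -- the generic point
  have hi : ∀ᶠ α in residual (H → G → Bool), ∀ q : Σ S : Finset H, (S → G),
      {β | mix q.1 q.2 (α, β) ∈ C} ∈ residual (H → G → Bool) := by
    rw [eventually_countable_forall]
    intro q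
    exact eventually_residual_prod
      (tendsto_residual_of_isOpenMap (mix_continuous q.1 q.2) (mix_open q.1 q.2) hC)
  have hii : ∀ᶠ α in residual (H → G → Bool),
      {γ | actAll (α, γ) ∈ C} ∈ residual (H → G) :=
    eventually_residual_prod (tendsto_residual_of_isOpenMap act_continuous act_open hC)
  have hiii : ∀ᶠ α in residual (H → G → Bool), ∀ h : H,
      ∀ B : Set (G → Bool), IsOpen B → B.Nonempty → ∃ g : G, sh g (α h) ∈ B := by
    rw [eventually_countable_forall]
    intro h
    have ht : Tendsto (fun α : H → G → Bool => α h) (residual (H → G → Bool))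
        (residual (G → Bool)) :=
      tendsto_residual_of_isOpenMap (continuous_apply h) (isOpenMap_eval h)
    exact ht.eventually dense_orbit
  obtain ⟨α, hα1, hα2, hα3⟩ :=
    (dense_of_mem_residual (hi.and (hii.and hiii))).nonempty
  -- one value is taken on a somewhere dense set
  set V : Set Y := {y | ∃ β, jump H (jump G (Eq : Bool → Bool → Prop)) α β ∧ f β = y} with hV
  have hVc : V.Countable := hc α
  have hk : ∃ y ∈ V, (interior (closure {γ : H → G | actAll (α, γ) ∈ C ∧
      f (actAll (α, γ)) = y})).Nonempty := by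
    by_contra hcon
    push Not at hcon
    have hmeagre : ∀ y ∈ V, ∀ᶠ γ in residual (H → G),
        γ ∉ {γ : H → G | actAll (α, γ) ∈ C ∧ f (actAll (α, γ)) = y} := by
      intro y hy
      have : IsMeagre {γ : H → G | actAll (α, γ) ∈ C ∧ f (actAll (α, γ)) = y} :=
        IsNowhereDense.isMeagre (hcon y hy)
      exact this
    have h2 : ∀ᶠ γ in residual (H → G), ∀ y ∈ V,
        γ ∉ {γ : H → G | actAll (α, γ) ∈ C ∧ f (actAll (α, γ)) = y} :=
      (eventually_countable_ball hVc).mpr hmeagre
    have h3 : ∀ᶠ γ in residual (H → G), actAll (α, γ) ∈ C := hα2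
    obtain ⟨γ, hγ1, hγ2⟩ := (dense_of_mem_residual (h2.and h3)).nonempty
    exact hγ1 (f (actAll (α, γ))) ⟨_, jump_of_actAll α γ, rfl⟩ ⟨hγ2, rfl⟩
  obtain ⟨y0, -, γ0, hγ0⟩ := hk
  set A : Set (H → G) := {γ : H → G | actAll (α, γ) ∈ C ∧ f (actAll (α, γ)) = y0} with hA
  obtain ⟨S, u, hu, hsub⟩ := isOpen_pi_iff.mp isOpen_interior γ0 hγ0
  set s : S → G := fun h => γ0 h with hs
  have hR := hα1 ⟨S, s⟩
  simp only at hR
  -- the value of `f` at the mixed points
  have hval : ∀ β, mix S s (α, β) ∈ C → f (mix S s (α, β)) = y0 := by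
    intro β hβ
    by_contra hne
    obtain ⟨B, hB, hfB, hBsub⟩ := (TopologicalSpace.isBasis_countableBasis Y).exists_subset_of_mem_open
      (show f (mix S s (α, β)) ∈ ({y0}ᶜ : Set Y) from hne) isOpen_compl_singleton
    have hmO : mix S s (α, β) ∈ O B := (hβ B hB).mp hfB
    obtain ⟨T, v, hv, hvsub⟩ := isOpen_pi_iff.mp (hOo B hB) _ hmO
    -- a translate of `α` in `O B`, with prescribed coordinates on `S`
    have hg : ∀ h : H, ∃ g : G, h ∈ T → h ∉ S → sh g (α h) ∈ v h := by
      intro h
      by_cases hT : h ∈ T
      · obtain ⟨g, hg⟩ := hα3 h (v h) (hv h hT).1 ⟨_, (hv h hT).2⟩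
        exact ⟨g, fun _ _ => hg⟩
      · exact ⟨1, fun h' => absurd h' hT⟩
    choose g hg using hg
    set γ : H → G := fun h => if h ∈ S then γ0 h else g h with hγ
    have hγO : actAll (α, γ) ∈ O B := by
      apply hvsub
      intro h hT
      by_cases hS : h ∈ S
      · have := (hv h hT).2
        simp only [mix, hS, dite_true] at this
        simpa [actAll, hγ, hS, hs] using this
      · simpa [actAll, hγ, hS] using hg h hT hS
    have hγcl : γ ∈ interior (closure A) := by
      apply hsub
      intro h hS
      have hS' : h ∈ S := hS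
      simp only [hγ, hS', if_true]
      exact (hu h hS').2
    have hopen : IsOpen ((fun γ : H → G => actAll (α, γ)) ⁻¹' (O B)) :=
      (hOo B hB).preimage (act_continuous.comp (by fun_prop))
    obtain ⟨γ1, hγ1O, hγ1A⟩ := mem_closure_iff.mp (interior_subset hγcl) _ hopen hγO
    have h5 : f (actAll (α, γ1)) ∈ B := (hγ1A.1 B hB).mpr hγ1O
    rw [hγ1A.2] at h5
    exact hBsub h5 rfl
  -- two inequivalent mixed points
  obtain ⟨β1, hβ1⟩ := (dense_of_mem_residual hR).nonempty
  obtain ⟨h', hh'⟩ := Infinite.exists_notMem_finset S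
  set Q : Set (G → Bool) := ⋃ h : H, range fun g : G => sh g (mix S s (α, β1) (h⁻¹ * h')) with hQ
  have hQc : Q.Countable := countable_iUnion fun h => countable_range _
  have hQr : ∀ᶠ β in residual (H → G → Bool), β h' ∉ Q := by
    have ht : Tendsto (fun α : H → G → Bool => α h') (residual (H → G → Bool))
        (residual (G → Bool)) :=
      tendsto_residual_of_isOpenMap (continuous_apply h') (isOpenMap_eval h')
    exact ht.eventually (countable_compl_residual hQc)
  have hR' : ∀ᶠ β in residual (H → G → Bool), mix S s (α, β) ∈ C := hR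
  obtain ⟨β2, hβ2C, hβ2Q⟩ := (dense_of_mem_residual (hR'.and hQr)).nonempty
  obtain ⟨h, hh⟩ := hinj _ _ ((hval β1 hβ1).trans (hval β2 hβ2C).symm)
  obtain ⟨g, hg⟩ := hh h'
  apply hβ2Q
  rw [hQ, mem_iUnion]
  refine ⟨h, g, ?_⟩
  funext x
  have := hg x
  have e : mix S s (α, β2) h' = β2 h' := by simp [mix, hh']
  rw [e] at this
  exact this

end main

end Run7.h185.GJump
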