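import Mathlib

/-!
Elementary facts about real cubics all of whose complex zeros are real.
-/

namespace Run7.h185.CubicReal

/-- a real quadratic with a non-negative-discriminant conclusion -/
lemma disc_nonneg {a b c : ℝ} (ha : a ≠ 0)
    (h : ∀ l : ℂ, (a : ℂ) * l ^ 2 + b * l + c = 0 → l.im = 0) : 0 ≤ b ^ 2 - 4 * a * c := by
  by_contra hneg
  push Not at hneg
  set D : ℝ := 4 * a * c - b ^ 2 with hD
  have hDpos : 0 < D := by rw [hD]; linarith
  set s : ℝ := Real.sqrt D with hs
  have hs2 : s ^ 2 = D := Real.sq_sqrt hDpos.le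
  have hspos : 0 < s := Real.sqrt_pos.mpr hDpos
  have key := h ⟨-b / (2 * a), s / (2 * a)⟩ (by
    apply Complex.ext
    · simp [pow_two]
      field_simp
      nlinarith [hs2]
    · simp [pow_two]
      field_simp
      ring)
  have : s / (2 * a) = 0 := key
  rw [div_eq_zero_iff] at this
  rcases this with h1 | h1
  · exact hspos.ne' h1
  · exact ha (by linarith)

/-- the two inequalities used, for a real cubic all of whose complex zeros are real -/
lemma cubic_ineq {a b c d : ℝ}
    (h : ∀ l : ℂ, (d : ℂ) + c * l + b * l ^ 2 + a * l ^ 3 = 0 → l.im = 0) :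
    2 * c * a ≤ b ^ 2 ∧
    ∀ t : ℝ, (d + c * t + b * t ^ 2 + a * t ^ 3) * (2 * b + 6 * a * t)
      ≤ (c + 2 * b * t + 3 * a * t ^ 2) ^ 2 := by
  by_cases ha : a = 0
  · subst ha
    by_cases hb : b = 0
    · subst hb
      refine ⟨by nlinarith, fun t => ?_⟩
      nlinarith [sq_nonneg c]
    · have hdisc : 0 ≤ c ^ 2 - 4 * b * d := by
        apply disc_nonneg hb
        intro l hl
        apply h l
        push_cast
        linear_combination hl
      refine ⟨by nlinarith [sq_nonneg b], fun t => ?_⟩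
      nlinarith [sq_nonneg (b * t + c / 2)]
  · -- a real root
    have hroot : ∃ l : ℂ, (d : ℂ) + c * l + b * l ^ 2 + a * l ^ 3 = 0 := by
      have hdeg : (Polynomial.C (a : ℂ) * Polynomial.X ^ 3 + Polynomial.C (b : ℂ) * Polynomial.X ^ 2
        + Polynomial.C (c : ℂ) * Polynomial.X + Polynomial.C (d : ℂ)).degree = 3 :=
        Polynomial.degree_cubic (by exact_mod_cast ha)
      obtain ⟨l, hl⟩ := Complex.exists_root (f := Polynomial.C (a : ℂ) * Polynomial.X ^ 3
        + Polynomial.C (b : ℂ) * Polynomial.X ^ 2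
        + Polynomial.C (c : ℂ) * Polynomial.X + Polynomial.C (d : ℂ)) (by rw [hdeg]; norm_num)
      refine ⟨l, ?_⟩
      simp only [Polynomial.IsRoot.def, Polynomial.eval_add, Polynomial.eval_mul,
        Polynomial.eval_C, Polynomial.eval_pow, Polynomial.eval_X] at hl
      linear_combination hl
    obtain ⟨l, hl⟩ := hroot
    have him := h l hl
    obtain ⟨ρ, rfl⟩ : ∃ ρ : ℝ, (ρ : ℂ) = l := ⟨l.re, by apply Complex.ext <;> simp [him]⟩
    have hρ : d + c * ρ + b * ρ ^ 2 + a * ρ ^ 3 = 0 := by exact_mod_cast hl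
    set β : ℝ := b + ρ * a with hβ
    set γ : ℝ := c + ρ * β with hγ
    have hb : b = β - ρ * a := by rw [hβ]; ring
    have hc : c = γ - ρ * β := by rw [hγ]; ring
    have hd : d = -ρ * γ := by rw [hγ, hβ]; linear_combination hρ
    clear_value γ β
    subst hb
    subst hc
    subst hd
    have hdisc : 0 ≤ β ^ 2 - 4 * a * γ := by
      apply disc_nonneg ha
      intro l hl
      apply h l
      push_cast
      linear_combination (l - ρ) * hl
    refine ⟨by nlinarith [sq_nonneg (a * ρ + β / 2)], fun t => ?_⟩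
    have e : (γ - ρ * β + 2 * (β - ρ * a) * t + 3 * a * t ^ 2) ^ 2
        - (-ρ * γ + (γ - ρ * β) * t + (β - ρ * a) * t ^ 2 + a * t ^ 3) * (2 * (β - ρ * a) + 6 * a * t)
        = (t - ρ) ^ 2 * (2 * (a * t + β / 2) ^ 2 + (β ^ 2 - 4 * a * γ) / 2)
          + (a * t ^ 2 + β * t + γ) ^ 2 := by ring
    have h1 : 0 ≤ (t - ρ) ^ 2 * (2 * (a * t + β / 2) ^ 2 + (β ^ 2 - 4 * a * γ) / 2) := by positivity
    nlinarith [sq_nonneg (a * t ^ 2 + β * t + γ)]

end Run7.h185.CubicReal
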