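import Mathlib

/-!
Auxiliary facts on multivariate polynomials: divisibility by a variable and polynomials of
total degree at most one.
-/

namespace Run7.h185.MvAux

open MvPolynomial

variable {σ : Type} [DecidableEq σ]

/-- substitute `0` for the variable `i` -/
noncomputable def kill (i : σ) : MvPolynomial σ ℝ →ₐ[ℝ] MvPolynomial σ ℝ :=
  aeval (fun j => if j = i then 0 else X j)

lemma X_dvd_sub_kill (i : σ) (f : MvPolynomial σ ℝ) : X i ∣ f - kill i f := by
  induction f using MvPolynomial.induction_on with
  | C a => simp [kill]
  | add p q hp hq =>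
    rw [map_add]
    have : p + q - (kill i p + kill i q) = (p - kill i p) + (q - kill i q) := by ring
    rw [this]
    exact dvd_add hp hq
  | mul_X p j hp =>
    rw [map_mul]
    have hk : kill i (X j : MvPolynomial σ ℝ) = if j = i then 0 else X j := by simp [kill]
    rw [hk]
    split_ifs with hji
    · subst hji
      simp
    · rw [← sub_mul]
      exact Dvd.dvd.mul_right hp _

lemma X_dvd_of_kill_eq_zero {i : σ} {f : MvPolynomial σ ℝ} (h : kill i f = 0) : X i ∣ f := by
  have := X_dvd_sub_kill i f
  rwa [h, sub_zero] at this

/-- a polynomial of total degree at most one is affine linear -/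
lemma eq_affine [Fintype σ] {f : MvPolynomial σ ℝ} (h : f.totalDegree ≤ 1) :
    f = C (coeff 0 f) + ∑ i, C (coeff (Finsupp.single i 1) f) * X i := by
  ext m
  rw [coeff_add, coeff_C, coeff_sum]
  simp only [coeff_C_mul, coeff_X]
  by_cases hm : f.totalDegree < m.degree
  · have h0 : coeff m f = 0 := coeff_eq_zero_of_totalDegree_lt (by rwa [Finsupp.degree_apply] at hm)
    rw [h0]
    have hm1 : 1 < m.degree ∨ f.totalDegree = 0 := by omega
    by_cases hz : (0 : σ →₀ ℕ) = m
    · subst hz; simp at hm
    rw [if_neg hz, zero_add]
    symm
    apply Finset.sum_eq_zero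
    intro i _
    by_cases hi : Finsupp.single i 1 = m
    · rw [if_pos hi, mul_one, hi, h0]
    · rw [if_neg hi, mul_zero]
  · have hm1 : m.degree ≤ 1 := by omega
    interval_cases hd : m.degree
    · have : m = 0 := (Finsupp.degree_eq_zero_iff m).mp hd
      subst this
      simp
    · obtain ⟨i, rfl⟩ : ∃ i, m = Finsupp.single i 1 := by
        have hmem : m ∈ Set.range (fun a : σ => Finsupp.single a 1) := by
          rw [Finsupp.range_single_one]; exact hd
        obtain ⟨i, hi⟩ := hmem
        exact ⟨i, hi.symm⟩
      rw [if_neg (by intro h; have := DFunLike.congr_fun h i; simp at this), zero_add,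
        Finset.sum_eq_single i]
      · simp
      · intro j _ hji
        rw [if_neg, mul_zero]
        intro h
        exact hji (Finsupp.single_left_injective one_ne_zero h)
      · intro h; exact absurd (Finset.mem_univ i) h

end Run7.h185.MvAux
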