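import Mathlib

/-!
If `S` is a real symmetric matrix and `det (1 + l S) = 0` then `l` is real.
-/

namespace Run7.h185.SymPencil

open Matrix

lemma im_eq_zero_of_det {n : Type} [Fintype n] [DecidableEq n] (S : Matrix n n ℝ)
    (hS : S.IsSymm) (l : ℂ)
    (h : ((1 : Matrix n n ℂ) + l • S.map (fun x : ℝ => (x : ℂ))).det = 0) : l.im = 0 := by
  obtain ⟨v, hv0, hv⟩ := Matrix.exists_mulVec_eq_zero_iff.mpr h
  rw [Matrix.add_mulVec, Matrix.one_mulVec, Matrix.smul_mulVec] at hv
  set T : Matrix n n ℂ := S.map (fun x : ℝ => (x : ℂ)) with hT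
  have hdot : star v ⬝ᵥ v + l * (star v ⬝ᵥ (T *ᵥ v)) = 0 := by
    have := congrArg (fun w => star v ⬝ᵥ w) hv
    simpa [dotProduct_add, dotProduct_smul] using this
  -- the first is a positive real
  have hN : star v ⬝ᵥ v = ((∑ i, ‖v i‖ ^ 2 : ℝ) : ℂ) := by
    simp only [dotProduct, Pi.star_apply]
    push_cast
    refine Finset.sum_congr rfl fun i _ => ?_
    rw [mul_comm]
    exact_mod_cast Complex.mul_conj' (v i)
  have hNpos : 0 < ∑ i, ‖v i‖ ^ 2 := by
    obtain ⟨i, hi⟩ := Function.ne_iff.mp hv0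
    refine Finset.sum_pos' (fun _ _ => by positivity) ⟨i, Finset.mem_univ _, ?_⟩
    have : v i ≠ 0 := hi
    positivity
  -- the second is real
  have hstar : star (star v ⬝ᵥ (T *ᵥ v)) = star v ⬝ᵥ (T *ᵥ v) := by
    have hTH : Tᴴ = T := by
      ext i j
      simp only [hT, conjTranspose_apply, map_apply]
      rw [show S j i = S i j from hS.apply i j]
      simp
    calc star (star v ⬝ᵥ (T *ᵥ v)) = star (T *ᵥ v) ⬝ᵥ v := by
          rw [← star_dotProduct_star]
          simp [dotProduct_comm]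
      _ = (star v ᵥ* Tᴴ) ⬝ᵥ v := by rw [star_mulVec]
      _ = star v ⬝ᵥ (T *ᵥ v) := by rw [hTH, dotProduct_mulVec]
  obtain ⟨s, hs⟩ : ∃ s : ℝ, (s : ℂ) = star v ⬝ᵥ (T *ᵥ v) := by
    refine ⟨(star v ⬝ᵥ (T *ᵥ v)).re, ?_⟩
    exact (Complex.conj_eq_iff_re.mp hstar)
  rw [hN, ← hs] at hdot
  have him := congrArg Complex.im hdot
  have hre := congrArg Complex.re hdot
  simp only [Complex.add_im, Complex.ofReal_im, Complex.mul_im, Complex.ofReal_re, mul_zero,
    zero_add, Complex.zero_im] at him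
  simp only [Complex.add_re, Complex.ofReal_re, Complex.mul_re, Complex.ofReal_im, mul_zero,
    sub_zero, Complex.zero_re] at hre
  rcases mul_eq_zero.mp him with h1 | h1
  · exact h1
  · exfalso
    rw [h1] at hre
    simp at hre
    linarith

end Run7.h185.SymPencil
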