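import Mathlib

/-!
Fréchet spaces, Fréchet algebras, Fréchet modules and injectivity.
-/

universe u v

namespace Run7.h185

/-- A Fréchet space over `ℂ`: a complete, metrizable (i.e. Hausdorff with countably generated
uniformity), locally convex topological vector space. -/
class FrechetSpace (E : Type u) [AddCommGroup E] [Module ℂ E] [UniformSpace E] : Prop where
  isUniformAddGroup : IsUniformAddGroup E
  continuousSMul : ContinuousSMul ℂ E
  locallyConvexSpace : LocallyConvexSpace ℝ E
  completeSpace : CompleteSpace E
  t2Space : T2Space E
  isCountablyGenerated : (uniformity E).IsCountablyGenerated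

attribute [instance] FrechetSpace.isUniformAddGroup FrechetSpace.continuousSMul
  FrechetSpace.locallyConvexSpace FrechetSpace.completeSpace FrechetSpace.t2Space
  FrechetSpace.isCountablyGenerated

/-- A Fréchet algebra (not necessarily unital): a Fréchet space with an associative bilinear
jointly continuous multiplication. -/
class FrechetAlgebra (A : Type u) [NonUnitalRing A] [Module ℂ A] [UniformSpace A] : Prop where
  frechetSpace : FrechetSpace A
  isScalarTower : IsScalarTower ℂ A A
  smulCommClass : SMulCommClass ℂ A A
  continuousMul : ContinuousMul A

attribute [instance] FrechetAlgebra.frechetSpace FrechetAlgebra.isScalarTower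
  FrechetAlgebra.smulCommClass FrechetAlgebra.continuousMul

/-- A Fréchet (left) `A`-module: a Fréchet space with a bilinear, associative and jointly
continuous action of `A` (no unitality is asked). -/
structure FrechetMod (A : Type v) [NonUnitalRing A] [Module ℂ A] [UniformSpace A] where
  /-- the underlying space -/
  carrier : Type u
  [addCommGroup : AddCommGroup carrier]
  [module : Module ℂ carrier]
  [uniformSpace : UniformSpace carrier]
  [frechetSpace : FrechetSpace carrier]
  /-- the action -/
  act : A →ₗ[ℂ] carrier →ₗ[ℂ] carrier
  mul_act : ∀ (a b : A) (x : carrier), act (a * b) x = act a (act b x)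
  continuous_act : Continuous fun p : A × carrier => act p.1 p.2

attribute [instance] FrechetMod.addCommGroup FrechetMod.module FrechetMod.uniformSpace
  FrechetMod.frechetSpace

namespace FrechetMod

variable {A : Type v} [NonUnitalRing A] [Module ℂ A] [UniformSpace A]

/-- `f` is a morphism of Fréchet `A`-modules -/
def IsMor (X Y : FrechetMod.{u} A) (f : X.carrier →L[ℂ] Y.carrier) : Prop :=
  ∀ (a : A) (x : X.carrier), f (X.act a x) = Y.act a (f x)

/-- `X` is injective among the Fréchet `A`-modules in the class `P`: every morphism from `X` to a
module in `P` which has a continuous linear left inverse has a left inverse which is a morphism of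
modules. -/
def InjectiveIn (P : FrechetMod.{u} A → Prop) (X : FrechetMod.{u} A) : Prop :=
  ∀ (Y : FrechetMod.{u} A), P Y → ∀ f : X.carrier →L[ℂ] Y.carrier, IsMor X Y f →
    (∃ g : Y.carrier →L[ℂ] X.carrier, ∀ x, g (f x) = x) →
    ∃ g : Y.carrier →L[ℂ] X.carrier, IsMor Y X g ∧ ∀ x, g (f x) = x

/-- `X` is an injective Fréchet `A`-module: every morphism `f : X → Y` of Fréchet `A`-modules
which has a continuous linear left inverse has a continuous `A`-linear left inverse. -/
def IsInjective (X : FrechetMod.{u} A) : Prop := InjectiveIn (fun _ => True) X

/-- the unital modules over a unital algebra -/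
def IsUnital {B : Type v} [Ring B] [Module ℂ B] [UniformSpace B] (X : FrechetMod.{u} B) : Prop :=
  ∀ x : X.carrier, X.act 1 x = x

end FrechetMod

end Run7.h185
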