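import Mathlib
import Pool.Agent.Run7.h185.Frechet

/-!
No non-zero unital Fréchet `ℂ⟦z⟧`-module is injective, and no non-zero Fréchet module over the
(non-unital) algebra `z ℂ⟦z⟧` is injective.
-/

universe u

namespace Run7.h185.FrechetPS

open PowerSeries PowerSeries.WithPiTopology Run7.h185 Filter Topology

/-! ### `ℂ⟦z⟧` is a Fréchet algebra -/

instance instFrechetPS : FrechetSpace (PowerSeries ℂ) where
  isUniformAddGroup := inferInstance
  continuousSMul := inferInstance
  locallyConvexSpace := (inferInstance : LocallyConvexSpace ℝ ((Unit →₀ ℕ) → ℂ))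
  completeSpace := inferInstance
  t2Space := inferInstance
  isCountablyGenerated :=
    (inferInstance : (uniformity ((Unit →₀ ℕ) → ℂ)).IsCountablyGenerated)

instance instFrechetAlgPS : FrechetAlgebra (PowerSeries ℂ) where
  frechetSpace := inferInstance
  isScalarTower := inferInstance
  smulCommClass := inferInstance
  continuousMul := inferInstance

/-- `(b - b(0)) / z` -/
noncomputable def shift : PowerSeries ℂ →ₗ[ℂ] PowerSeries ℂ where
  toFun b := PowerSeries.mk fun n => coeff (n + 1) b
  map_add' a b := by ext n; simp
  map_smul' c b := by ext n; simp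

lemma coeff_shift (n : ℕ) (b : PowerSeries ℂ) : coeff n (shift b) = coeff (n + 1) b := by
  simp [shift]

lemma eq_X_mul_shift (b : PowerSeries ℂ) : b = X * shift b + C (constantCoeff b) :=
  PowerSeries.eq_X_mul_shift_add_const b

lemma continuous_shift : Continuous shift := by
  rw [continuous_iff_continuousAt]
  intro b
  rw [ContinuousAt, PowerSeries.WithPiTopology.tendsto_iff_coeff_tendsto]
  intro d
  simp only [coeff_shift]
  exact (PowerSeries.WithPiTopology.continuous_coeff ℂ (d + 1)).tendsto b

lemma shift_X_mul (b : PowerSeries ℂ) : shift (X * b) = b := by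
  ext n
  rw [coeff_shift, PowerSeries.coeff_succ_X_mul]

lemma shift_C (c : ℂ) : shift (C c) = 0 := by
  ext n
  rw [coeff_shift]
  simp

lemma shift_mul (a b : PowerSeries ℂ) :
    shift (a * b) = a * shift b + constantCoeff b • shift a := by
  have h1 := eq_X_mul_shift (a * b)
  have h2 := eq_X_mul_shift a
  have h3 := eq_X_mul_shift b
  have hC : C (constantCoeff (a * b)) = C (constantCoeff a) * C (constantCoeff b) := by
    rw [map_mul, map_mul]
  have : X * shift (a * b) = X * (a * shift b + constantCoeff b • shift a) := by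
    have e : (constantCoeff b • shift a : PowerSeries ℂ) = C (constantCoeff b) * shift a := by
      rw [PowerSeries.smul_eq_C_mul]
    rw [e]
    calc X * shift (a * b) = a * b - C (constantCoeff (a * b)) := by
          rw [eq_sub_iff_add_eq, ← h1]
      _ = a * (X * shift b + C (constantCoeff b)) - C (constantCoeff a) * C (constantCoeff b) := by
          rw [← h3, hC]
      _ = X * (a * shift b) + (a - C (constantCoeff a)) * C (constantCoeff b) := by ring
      _ = X * (a * shift b) + (X * shift a) * C (constantCoeff b) := by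
          congr 2
          rw [sub_eq_iff_eq_add, ← h2]
      _ = X * (a * shift b + C (constantCoeff b) * shift a) := by ring
  exact mul_left_cancel₀ PowerSeries.X_ne_zero this

/-! ### The extension of a module by one dimension -/

/-- the module `X × ℂ` with `b (y, c) = (b y + c ((b - b(0))/z) x, b(0) c)` -/
noncomputable def ext1 (M : FrechetMod.{u} (PowerSeries ℂ)) (x : M.carrier) :
    FrechetMod.{u} (PowerSeries ℂ) where
  carrier := M.carrier × ℂ
  frechetSpace :=
    { isUniformAddGroup := inferInstance
      continuousSMul := inferInstance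
      locallyConvexSpace := inferInstance
      completeSpace := inferInstance
      t2Space := inferInstance
      isCountablyGenerated := inferInstance }
  act := LinearMap.mk₂ ℂ
    (fun b p => (M.act b p.1 + p.2 • M.act (shift b) x, constantCoeff b * p.2))
    (by intro a b p; ext
        · simp; abel
        · simp [add_mul])
    (by intro c b p; ext
        · simp [smul_add, smul_comm c p.2]
        · simp [mul_assoc])
    (by intro b p q; ext
        · simp [add_smul]; abel
        · simp [mul_add])
    (by intro c b p; ext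
        · simp [mul_smul]
        · simp; ring)
  mul_act := by
    intro a b p
    ext
    · simp only [LinearMap.mk₂_apply, M.mul_act, shift_mul, map_add, map_smul, LinearMap.add_apply,
        LinearMap.smul_apply, smul_add, smul_smul]
      rw [mul_comm p.2 (constantCoeff b)]
      abel
    · simp [mul_assoc]
  continuous_act := by
    have h1 : Continuous fun p : PowerSeries ℂ × (M.carrier × ℂ) => M.act p.1 p.2.1 :=
      M.continuous_act.comp (continuous_fst.prodMk (continuous_fst.comp continuous_snd))
    have h2 : Continuous fun p : PowerSeries ℂ × (M.carrier × ℂ) => M.act (shift p.1) x :=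
      M.continuous_act.comp ((continuous_shift.comp continuous_fst).prodMk continuous_const)
    have h3 : Continuous fun p : PowerSeries ℂ × (M.carrier × ℂ) => p.2.2 :=
      continuous_snd.comp continuous_snd
    have h4 : Continuous fun p : PowerSeries ℂ × (M.carrier × ℂ) => constantCoeff p.1 :=
      (PowerSeries.WithPiTopology.continuous_constantCoeff ℂ).comp continuous_fst
    exact (h1.add (h3.smul h2)).prodMk (h4.mul h3)

/-- an injective unital module is divisible by `z` -/
lemma divisible (M : FrechetMod.{u} (PowerSeries ℂ)) (hu : M.IsUnital)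
    (hM : FrechetMod.InjectiveIn (FrechetMod.IsUnital) M) (x : M.carrier) :
    ∃ w : M.carrier, M.act X w = x := by
  have hunit : (ext1 M x).IsUnital := by
    intro p
    change (M.act 1 p.1 + p.2 • M.act (shift 1) x, constantCoeff (1 : PowerSeries ℂ) * p.2) = p
    have : shift (1 : PowerSeries ℂ) = 0 := by
      have := shift_C 1
      simpa using this
    rw [hu, this]
    simp
  obtain ⟨g, hg, hgl⟩ := hM (ext1 M x) hunit (ContinuousLinearMap.inl ℂ M.carrier ℂ)
    (by
      intro a y
      change (M.act a y, (0 : ℂ)) = (M.act a y + (0 : ℂ) • M.act (shift a) x, constantCoeff a * 0)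
      simp)
    ⟨ContinuousLinearMap.fst ℂ M.carrier ℂ, fun y => rfl⟩
  let e : (ext1 M x).carrier := ((0, 1) : M.carrier × ℂ)
  let e' : (ext1 M x).carrier := ((x, 0) : M.carrier × ℂ)
  have h1 : (ext1 M x).act X e = e' := by
    change (M.act X 0 + (1 : ℂ) • M.act (shift X) x, constantCoeff (X : PowerSeries ℂ) * 1)
      = (x, (0 : ℂ))
    have : shift (X : PowerSeries ℂ) = 1 := by
      have := shift_X_mul 1
      simpa using this
    rw [this, hu]
    simp
  exact ⟨g e, (hg X e).symm.trans ((congrArg g h1).trans (hgl x))⟩

lemma divisible_pow (M : FrechetMod.{u} (PowerSeries ℂ)) (hu : M.IsUnital)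
    (hM : FrechetMod.InjectiveIn (FrechetMod.IsUnital) M) (n : ℕ) (x : M.carrier) :
    ∃ w : M.carrier, M.act (X ^ n) w = x := by
  induction n generalizing x with
  | zero => exact ⟨x, by rw [pow_zero]; exact hu x⟩
  | succ n ih =>
    obtain ⟨w, hw⟩ := ih x
    obtain ⟨w', hw'⟩ := divisible M hu hM w
    exact ⟨w', by rw [pow_succ, M.mul_act, hw', hw]⟩

/-- every neighbourhood of `0` in `ℂ⟦z⟧` contains a line spanned by a power of `z` -/
lemma exists_line {V : Set (PowerSeries ℂ)} (hV : V ∈ 𝓝 (0 : PowerSeries ℂ)) :
    ∃ n : ℕ, ∀ t : ℂ, t • (X ^ n : PowerSeries ℂ) ∈ V := by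
  by_contra hcon
  push Not at hcon
  choose t ht using hcon
  have hlim : Tendsto (fun n => t n • (X ^ n : PowerSeries ℂ)) atTop (𝓝 0) := by
    rw [PowerSeries.WithPiTopology.tendsto_iff_coeff_tendsto]
    intro d
    apply tendsto_atTop_of_eventually_const (i₀ := d + 1)
    intro n hn
    rw [PowerSeries.coeff_smul, PowerSeries.coeff_X_pow, if_neg (by omega)]
    simp
  obtain ⟨n, hn⟩ := (hlim.eventually hV).exists
  exact ht n hn

/-- **no non-zero unital Fréchet `ℂ⟦z⟧`-module is injective among unital modules** -/
theorem unital_case (M : FrechetMod.{u} (PowerSeries ℂ)) (hu : M.IsUnital)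
    (hM : FrechetMod.InjectiveIn (FrechetMod.IsUnital) M) (x : M.carrier) : x = 0 := by
  by_contra hx
  -- a neighbourhood of zero not containing `x`
  have hU : ({x}ᶜ : Set M.carrier) ∈ 𝓝 (0 : M.carrier) :=
    isOpen_compl_singleton.mem_nhds (by simpa using Ne.symm hx)
  have hcont : Tendsto (fun p : PowerSeries ℂ × M.carrier => M.act p.1 p.2)
      (𝓝 (0, 0)) (𝓝 (0 : M.carrier)) := by
    have := M.continuous_act.tendsto (0, 0)
    simpa using this
  have hpre := hcont hU
  rw [nhds_prod_eq, Filter.mem_map, Filter.mem_prod_iff] at hpre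
  obtain ⟨V, hV, W, hW, hVW⟩ := hpre
  obtain ⟨n, hn⟩ := exists_line hV
  obtain ⟨w, hw⟩ := divisible_pow M hu hM n x
  -- scale `w` into `W`
  have hs : Tendsto (fun s : ℂ => s • w) (𝓝[≠] 0) (𝓝 (0 : M.carrier)) := by
    have h1 : Tendsto (fun s : ℂ => s • w) (𝓝 0) (𝓝 ((0 : ℂ) • w)) :=
      (continuous_id.smul continuous_const).tendsto 0
    rw [zero_smul] at h1
    exact h1.mono_left nhdsWithin_le_nhds
  obtain ⟨s, hsW, hs0⟩ := ((hs.eventually hW).and (self_mem_nhdsWithin)).exists
  have hs0' : s ≠ 0 := hs0
  have hmem : ((s⁻¹ • (X ^ n : PowerSeries ℂ), s • w) : PowerSeries ℂ × M.carrier) ∈ V ×ˢ W :=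
    ⟨hn _, hsW⟩
  have := hVW hmem
  simp only [Set.mem_preimage, map_smul, LinearMap.smul_apply, Set.mem_compl_iff,
    Set.mem_singleton_iff] at this
  apply this
  rw [smul_smul, mul_inv_cancel₀ hs0', one_smul, hw]

end Run7.h185.FrechetPS
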