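import Mathlib
import Pool.Agent.Run7.h185.FrechetPS

/-!
The non-unital Fréchet algebra `z ℂ⟦z⟧` (realised on the space `ℂ⟦z⟧` through `a ↦ z a`, i.e. with
the product `a ⋆ b = z a b`) has no non-zero injective Fréchet module.
-/

universe u

namespace Run7.h185.FrechetPS

open PowerSeries PowerSeries.WithPiTopology Run7.h185 Filter Topology

/-- a copy of the space `ℂ⟦z⟧`; `a` stands for the element `z a` of the algebra `z ℂ⟦z⟧` -/
def ZPS : Type := PowerSeries ℂ

namespace ZPS

noncomputable instance : AddCommGroup ZPS := inferInstanceAs (AddCommGroup (PowerSeries ℂ))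
noncomputable instance : Module ℂ ZPS := inferInstanceAs (Module ℂ (PowerSeries ℂ))
noncomputable instance : UniformSpace ZPS := inferInstanceAs (UniformSpace (PowerSeries ℂ))
instance : FrechetSpace ZPS := inferInstanceAs (FrechetSpace (PowerSeries ℂ))

/-- the identification of the underlying spaces -/
noncomputable def toPS : ZPS ≃ₗ[ℂ] PowerSeries ℂ := LinearEquiv.refl ℂ (PowerSeries ℂ)

lemma continuous_toPS : Continuous toPS := continuous_id
lemma continuous_toPS_symm : Continuous toPS.symm := continuous_id

/-- the product `a ⋆ b = z a b` -/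
noncomputable instance : Mul ZPS := ⟨fun a b => toPS.symm (X * toPS a * toPS b)⟩

lemma toPS_mul (a b : ZPS) : toPS (a * b) = X * toPS a * toPS b := rfl

noncomputable instance : NonUnitalCommRing ZPS where
  left_distrib a b c := toPS.injective (by simp only [toPS_mul, map_add]; ring)
  right_distrib a b c := toPS.injective (by simp only [toPS_mul, map_add]; ring)
  zero_mul a := toPS.injective (by simp only [toPS_mul, map_zero]; ring)
  mul_zero a := toPS.injective (by simp only [toPS_mul, map_zero]; ring)
  mul_assoc a b c := toPS.injective (by simp only [toPS_mul]; ring)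
  mul_comm a b := toPS.injective (by simp only [toPS_mul]; ring)

instance : FrechetAlgebra ZPS where
  frechetSpace := inferInstance
  isScalarTower := ⟨fun c a b => toPS.injective (by
    simp only [smul_eq_mul, toPS_mul, map_smul]
    rw [mul_smul_comm, smul_mul_assoc])⟩
  smulCommClass := ⟨fun c a b => toPS.injective (by
    simp only [smul_eq_mul, toPS_mul, map_smul]
    rw [mul_smul_comm])⟩
  continuousMul := ⟨by
    have : Continuous fun p : ZPS × ZPS => (X : PowerSeries ℂ) * toPS p.1 * toPS p.2 :=
      (continuous_const.mul (continuous_toPS.comp continuous_fst)).mul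
        (continuous_toPS.comp continuous_snd)
    exact continuous_toPS_symm.comp this⟩

end ZPS

/-- a module over `z ℂ⟦z⟧` as a unital module over `ℂ⟦z⟧` -/
noncomputable def toB (M : FrechetMod.{u} ZPS) : FrechetMod.{u} (PowerSeries ℂ) where
  carrier := M.carrier
  act := LinearMap.mk₂ ℂ
    (fun b x => constantCoeff b • x + M.act (ZPS.toPS.symm (shift b)) x)
    (by intro a b x; simp [add_smul]; abel)
    (by intro c b x; simp [mul_smul])
    (by intro b x y; simp [smul_add]; abel)
    (by intro c b x; simp only [map_smul, smul_add]; rw [smul_comm])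
  mul_act := by
    intro a b x
    have e : ZPS.toPS.symm (shift (a * b)) =
        constantCoeff a • ZPS.toPS.symm (shift b)
        + (ZPS.toPS.symm (shift a) * ZPS.toPS.symm (shift b) : ZPS)
        + constantCoeff b • ZPS.toPS.symm (shift a) := by
      apply ZPS.toPS.injective
      simp only [map_add, map_smul, ZPS.toPS_mul, LinearEquiv.apply_symm_apply, shift_mul]
      congr 1
      nth_rewrite 1 [eq_X_mul_shift a]
      rw [PowerSeries.smul_eq_C_mul]
      ring
    simp only [LinearMap.mk₂_apply]
    rw [e]
    simp only [map_add, map_smul, LinearMap.add_apply, LinearMap.smul_apply, map_mul, mul_smul,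
      smul_add, M.mul_act]
    abel
  continuous_act := by
    have h1 : Continuous fun p : PowerSeries ℂ × M.carrier => constantCoeff p.1 • p.2 :=
      ((PowerSeries.WithPiTopology.continuous_constantCoeff ℂ).comp continuous_fst).smul
        continuous_snd
    have h2 : Continuous fun p : PowerSeries ℂ × M.carrier =>
        M.act (ZPS.toPS.symm (shift p.1)) p.2 :=
      M.continuous_act.comp
        (((ZPS.continuous_toPS_symm.comp continuous_shift).comp continuous_fst).prodMk
          continuous_snd)
    exact h1.add h2

lemma toB_act (M : FrechetMod.{u} ZPS) (b : PowerSeries ℂ) (x : M.carrier) :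
    (show M.carrier from (toB M).act b x)
      = constantCoeff b • x + M.act (ZPS.toPS.symm (shift b)) x := rfl

lemma toB_unital (M : FrechetMod.{u} ZPS) : (toB M).IsUnital := by
  intro (x : M.carrier)
  have : shift (1 : PowerSeries ℂ) = 0 := by
    have := shift_C 1
    simpa using this
  change constantCoeff (1 : PowerSeries ℂ) • x + M.act (ZPS.toPS.symm (shift 1)) x = x
  rw [this]
  simp

/-- restriction of a module over `ℂ⟦z⟧` to `z ℂ⟦z⟧` -/
noncomputable def ofB (N : FrechetMod.{u} (PowerSeries ℂ)) : FrechetMod.{u} ZPS where
  carrier := N.carrier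
  act := N.act.comp ((LinearMap.mulLeft ℂ (X : PowerSeries ℂ)).comp ZPS.toPS.toLinearMap)
  mul_act := by
    intro a b x
    simp only [LinearMap.comp_apply, LinearEquiv.coe_coe, ZPS.toPS_mul, LinearMap.mulLeft_apply,
      ← N.mul_act]
    congr 2
    ring
  continuous_act := by
    refine N.continuous_act.comp (Continuous.prodMk ?_ continuous_snd)
    exact continuous_const.mul (ZPS.continuous_toPS.comp continuous_fst)

lemma ofB_act (N : FrechetMod.{u} (PowerSeries ℂ)) (a : ZPS) (x : N.carrier) :
    (ofB N).act a x = N.act (X * ZPS.toPS a) x := rfl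

/-- **no non-zero Fréchet module over `z ℂ⟦z⟧` is injective** -/
theorem nonunital_case (M : FrechetMod.{u} ZPS) (hM : M.IsInjective) (x : M.carrier) : x = 0 := by
  refine unital_case (toB M) (toB_unital M) ?_ x
  intro Y hY f hf hleft
  have hmor : FrechetMod.IsMor M (ofB Y) f := by
    intro a y
    have h0 : (show M.carrier from (toB M).act (X * ZPS.toPS a) y) = M.act a y := by
      rw [toB_act, shift_X_mul]
      simp only [map_mul, PowerSeries.constantCoeff_X, zero_mul, zero_smul, zero_add,
        LinearEquiv.symm_apply_apply]
    exact (congrArg f h0).symm.trans (hf (X * ZPS.toPS a) y)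
  obtain ⟨g, hg, hgl⟩ := hM (ofB Y) trivial f hmor hleft
  refine ⟨g, ?_, hgl⟩
  intro b y
  have h2 : g (Y.act (X * shift b) y) = M.act (ZPS.toPS.symm (shift b)) (g y) :=
    hg (ZPS.toPS.symm (shift b)) y
  have h3 : Y.act b y = constantCoeff b • y + Y.act (X * shift b) y := by
    nth_rewrite 1 [eq_X_mul_shift b]
    have : (C (constantCoeff b) : PowerSeries ℂ) = constantCoeff b • (1 : PowerSeries ℂ) := by
      rw [PowerSeries.smul_eq_C_mul, mul_one]
    rw [map_add, LinearMap.add_apply, this, map_smul, LinearMap.smul_apply, hY, add_comm]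
  rw [h3, map_add, map_smul]
  change constantCoeff b • g y + g (Y.act (X * shift b) y)
    = constantCoeff b • g y + M.act (ZPS.toPS.symm (shift b)) (g y)
  rw [h2]

end Run7.h185.FrechetPS
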