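import Mathlib
import Pool.Agent.Run7.h185.Frechet
import Pool.Agent.Run7.h185.FrechetZPS

/-!
There is a Fréchet algebra over which no non-zero Fréchet module has an injective coresolution.
-/

universe u v

namespace Run7.h185.NoInjCoresWd

open Run7.h185

section

variable {A : Type v} [NonUnitalRing A] [Module ℂ A] [UniformSpace A]

/-- continuous linear maps between the underlying spaces of two Fréchet modules -/
abbrev Lin (X Y : FrechetMod.{u} A) : Type u := X.carrier →L[ℂ] Y.carrier

/-- `s ∘ d = id` -/
def LeftInv {X Y : FrechetMod.{u} A} (d : Lin X Y) (s : Lin Y X) : Prop :=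
  ∀ x, s (d x) = x

/-- `d' ∘ d = 0` -/
def CompZero {X Y Z : FrechetMod.{u} A} (d : Lin X Y) (d' : Lin Y Z) : Prop :=
  ∀ x, d' (d x) = 0

/-- `d ∘ s + s' ∘ d' = id` at the middle term of `X → Y → Z` -/
def Splits {X Y Z : FrechetMod.{u} A} (d : Lin X Y) (s : Lin Y X) (d' : Lin Y Z) (s' : Lin Z Y) :
    Prop :=
  ∀ y, d (s y) + s' (d' y) = y

/-- An admissible complex `0 → C 0 → C 1 → C 2 → ⋯` of Fréchet `A`-modules: a complex of morphisms
of Fréchet modules with a contracting homotopy `s` made of continuous linear maps. -/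
structure AdmissibleComplex (C : ℕ → FrechetMod.{u} A) where
  /-- the differentials -/
  d : ∀ n, Lin (C n) (C (n + 1))
  /-- the contracting homotopy -/
  s : ∀ n, Lin (C (n + 1)) (C n)
  d_mor : ∀ n, FrechetMod.IsMor (C n) (C (n + 1)) (d n)
  d_d : ∀ n, CompZero (d n) (d (n + 1))
  split_zero : LeftInv (d 0) (s 0)
  split_succ : ∀ n, Splits (d n) (s n) (d (n + 1)) (s (n + 1))

/-- `X` has an injective coresolution `0 → X → J₀ → J₁ → ⋯`: an admissible complex `C` with
`C 0 = X` and all `Jₙ = C (n + 1)` injective. -/
def HasInjectiveCoresolution (X : FrechetMod.{u} A) : Prop :=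
  ∃ C : ℕ → FrechetMod.{u} A, C 0 = X ∧ Nonempty (AdmissibleComplex C) ∧
    ∀ n, (C (n + 1)).IsInjective

variable (A) in
/-- the space `ℂ` with zero action -/
noncomputable def zeroMod : FrechetMod.{u} A where
  carrier := ULift.{u} ℂ
  frechetSpace :=
    { isUniformAddGroup := inferInstance
      continuousSMul := inferInstance
      locallyConvexSpace := inferInstance
      completeSpace := inferInstance
      t2Space := inferInstance
      isCountablyGenerated := inferInstance }
  act := 0
  mul_act := by intro a b x; simp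
  continuous_act := by simpa using continuous_const

end

/-- **Injective coresolutions of Fréchet modules need not exist.** There is a (commutative)
Fréchet algebra `A` such that non-zero Fréchet `A`-modules exist and none of them has an injective
coresolution. -/
theorem main :
    ∃ (A : Type) (_ : NonUnitalCommRing A) (_ : Module ℂ A) (_ : UniformSpace A),
      FrechetAlgebra A ∧
      (∃ X : FrechetMod.{u} A, Nontrivial X.carrier) ∧
      ∀ X : FrechetMod.{u} A, Nontrivial X.carrier → ¬ HasInjectiveCoresolution X := by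
  refine ⟨FrechetPS.ZPS, inferInstance, inferInstance, inferInstance, inferInstance,
    ⟨zeroMod FrechetPS.ZPS, (inferInstance : Nontrivial (ULift.{u} ℂ))⟩, ?_⟩
  rintro _ hX ⟨C, rfl, ⟨R⟩, hR⟩
  obtain ⟨x, hx⟩ := exists_ne (0 : (C 0).carrier)
  have h0 : R.d 0 x = 0 := FrechetPS.nonunital_case (C 1) (hR 0) _
  apply hx
  rw [← R.split_zero x, h0, map_zero]

end Run7.h185.NoInjCoresWd
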