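import Mathlib
import Pool.Agent.Run7.h185.Frechet
import Pool.Agent.Run7.h185.FrechetZPS

/-!
There is a Fréchet algebra over which the zero module is the only injective Fréchet module
(`z ℂ⟦z⟧`, for modules without unitality assumption; `ℂ⟦z⟧` for unital modules).
-/

universe u

namespace Run7.h185.NoInjectiveWd

open Run7.h185

/-- **There is a Fréchet algebra without non-zero injective Fréchet modules.**
First part: a (commutative, non-unital) Fréchet algebra `A` such that every injective Fréchet
`A`-module is zero. Second part, for the convention of unital modules over unital algebras: a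
non-zero commutative unital Fréchet algebra `B` such that every unital Fréchet `B`-module which is
injective among the unital Fréchet `B`-modules is zero. -/
theorem main :
    (∃ (A : Type) (_ : NonUnitalCommRing A) (_ : Module ℂ A) (_ : UniformSpace A),
      FrechetAlgebra A ∧
      ∀ M : FrechetMod.{u} A, M.IsInjective → Subsingleton M.carrier) ∧
    (∃ (B : Type) (_ : CommRing B) (_ : Module ℂ B) (_ : UniformSpace B),
      Nontrivial B ∧ FrechetAlgebra B ∧
      ∀ M : FrechetMod.{u} B, M.IsUnital → M.InjectiveIn FrechetMod.IsUnital →
        Subsingleton M.carrier) := by
  constructor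
  · refine ⟨FrechetPS.ZPS, inferInstance, inferInstance, inferInstance, inferInstance, ?_⟩
    intro M hM
    exact ⟨fun x y => by
      rw [FrechetPS.nonunital_case M hM x, FrechetPS.nonunital_case M hM y]⟩
  · refine ⟨PowerSeries ℂ, inferInstance, inferInstance,
      PowerSeries.WithPiTopology.instUniformSpace ℂ, inferInstance,
      FrechetPS.instFrechetAlgPS, ?_⟩
    intro M hu hM
    exact ⟨fun x y => by
      rw [FrechetPS.unital_case M hu hM x, FrechetPS.unital_case M hu hM y]⟩

end Run7.h185.NoInjectiveWd
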