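import Pool.Agent.Run7.h185.CS.Seq

/-!
# Large convex sets inside a sumset

For every `n ≥ 1` there are a set `B` of `n` reals and a convex set `A ⊆ B + B` with at least
`n² / 968` elements.  So the answer is positive (NOT handed in: withdrawn, the result follows from Bhowmick, Lund and
Roche-Newton, Large convex sets in difference sets): the largest size `c(n)` of a convex
subset of a sumset `B + B` with `|B| = n` is not `o(n²)`; it lies between two constant multiples of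
`n²`.
-/

open Finset Filter Topology
open scoped Pointwise

namespace Run7.h185.QuadraticSizeWd

/-- `A = {a_0 < a_1 < ⋯ < a_k}` is convex: its consecutive gaps strictly increase. -/
def IsConvexSet (A : Finset ℝ) : Prop :=
  ∃ (k : ℕ) (a : ℕ → ℝ), A = (range (k + 1)).image a ∧ (∀ i, i + 1 ≤ k → a i < a (i + 1)) ∧
    ∀ i, i + 2 ≤ k → a (i + 1) - a i < a (i + 2) - a (i + 1)

/-- The sizes of the convex subsets of sumsets `B + B` with `|B| = n`. -/
def sizes (n : ℕ) : Set ℕ :=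
  {t | ∃ A B : Finset ℝ, B.card = n ∧ IsConvexSet A ∧ A ⊆ B + B ∧ A.card = t}

/-- `c(n)`: the largest size of a convex subset of a sumset `B + B` with `|B| = n`. -/
noncomputable def c (n : ℕ) : ℕ := sSup (sizes n)

theorem card_image {k : ℕ} {a : ℕ → ℝ} (h : ∀ i, i + 1 ≤ k → a i < a (i + 1)) :
    ((range (k + 1)).image a).card = k + 1 := by
  rw [card_image_of_injOn, card_range]
  have hmono : ∀ i j : ℕ, i < j → j ≤ k → a i < a j := by
    intro i j hij
    induction j, hij using Nat.le_induction with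
    | base => exact fun hj => h i hj
    | succ j hj ih => exact fun hk => (ih (by omega)).trans (h j hk)
  intro i hi j hj hij
  have hi' := mem_range.1 (mem_coe.1 hi)
  have hj' := mem_range.1 (mem_coe.1 hj)
  rcases lt_trichotomy i j with hlt | heq | hgt
  · exact absurd hij (hmono i j hlt (by omega)).ne
  · exact heq
  · exact absurd hij (hmono j i hgt (by omega)).ne'

theorem small {n : ℕ} (hn : 1 ≤ n) :
    ∃ A B : Finset ℝ, B.card = n ∧ IsConvexSet A ∧ A ⊆ B + B ∧ A.card = 1 := by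
  obtain ⟨B, hB1, hB2⟩ := Infinite.exists_superset_card_eq ({0} : Finset ℝ) n (by simpa using hn)
  refine ⟨{0}, B, hB2, ⟨0, fun _ => 0, by simp, fun i hi => by omega, fun i hi => by omega⟩, ?_,
    card_singleton _⟩
  intro x hx
  rw [mem_singleton] at hx
  rw [hx]
  have h0 : (0 : ℝ) ∈ B := hB1 (mem_singleton_self _)
  have := add_mem_add h0 h0
  rwa [add_zero] at this

theorem big {n m : ℕ} (hm : 1 ≤ m) (hn : 21 * m + 2 ≤ n) :
    ∃ A B : Finset ℝ, B.card = n ∧ IsConvexSet A ∧ A ⊆ B + B ∧ A.card = 2 * m ^ 2 := by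
  obtain ⟨B0, a, hcard, hmem, hlt, hgap⟩ := Run7.h185.CS.exists_seq m hm
  obtain ⟨B, hB1, hB2⟩ := Infinite.exists_superset_card_eq (B0.image ((↑) : ℤ → ℝ)) n
    (card_image_le.trans (hcard.trans hn))
  have hpos : 2 * m ^ 2 - 1 + 1 = 2 * m ^ 2 := by
    have : 1 ≤ m ^ 2 := Nat.one_le_pow _ _ hm
    omega
  have h1 : ∀ i, i + 1 ≤ 2 * m ^ 2 - 1 → ((a i : ℤ) : ℝ) < ((a (i + 1) : ℤ) : ℝ) := by
    intro i hi
    exact_mod_cast hlt i (by omega)
  refine ⟨(range (2 * m ^ 2 - 1 + 1)).image fun k => ((a k : ℤ) : ℝ), B, hB2,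
    ⟨2 * m ^ 2 - 1, fun k => ((a k : ℤ) : ℝ), rfl, h1, ?_⟩, ?_, ?_⟩
  · intro i hi
    have := hgap i (by omega)
    beta_reduce
    exact_mod_cast this
  · intro x hx
    obtain ⟨k, hk, rfl⟩ := mem_image.1 hx
    obtain ⟨b, hb, b', hb', e⟩ := mem_add.1 (hmem k (by have := mem_range.1 hk; omega))
    have : ((a k : ℤ) : ℝ) = (b : ℝ) + (b' : ℝ) := by rw [← e]; push_cast; rfl
    rw [this]
    exact add_mem_add (hB1 (mem_image_of_mem _ hb)) (hB1 (mem_image_of_mem _ hb'))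
  · rw [card_image h1, hpos]

theorem exists_sets (n : ℕ) (hn : 1 ≤ n) : ∃ A B : Finset ℝ, B.card = n ∧ IsConvexSet A ∧
    A ⊆ B + B ∧ (1 / 968 : ℝ) * (n : ℝ) ^ 2 ≤ (A.card : ℝ) := by
  rcases Nat.lt_or_ge n 23 with h | h
  · obtain ⟨A, B, h1, h2, h3, h4⟩ := small hn
    refine ⟨A, B, h1, h2, h3, ?_⟩
    rw [h4]
    have : (n : ℝ) ≤ 22 := by exact_mod_cast (by omega : n ≤ 22)
    have h0 : (0 : ℝ) ≤ n := by positivity
    push_cast
    nlinarith
  · obtain ⟨A, B, h1, h2, h3, h4⟩ := big (n := n) (m := (n - 2) / 21) (by omega) (by omega)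
    refine ⟨A, B, h1, h2, h3, ?_⟩
    rw [h4]
    have h5 : n ≤ 44 * ((n - 2) / 21) := by omega
    have h6 : (n : ℝ) ≤ 44 * (((n - 2) / 21 : ℕ) : ℝ) := by exact_mod_cast h5
    have h0 : (0 : ℝ) ≤ n := by positivity
    push_cast
    nlinarith

theorem bddAbove (n : ℕ) : BddAbove (sizes n) := by
  refine ⟨n * n, ?_⟩
  rintro t ⟨A, B, hB, -, hAB, rfl⟩
  calc A.card ≤ (B + B).card := card_le_card hAB
    _ ≤ B.card * B.card := card_add_le
    _ = n * n := by rw [hB]

/-- (1) There is a constant `k > 0` such that for every `n ≥ 1` there are a set `B` of `n` reals and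
a convex set `A ⊆ B + B` with at least `k n²` elements. (2) `c n` is the largest size of a convex
subset of a sumset `B + B` with `|B| = n`, and `n² / 968 ≤ c n ≤ n²`. (3) So `c(n) / n²` does not
tend to `0`. -/
theorem result :
    (∃ k : ℝ, 0 < k ∧ ∀ n : ℕ, 1 ≤ n → ∃ A B : Finset ℝ, B.card = n ∧ IsConvexSet A ∧
      A ⊆ B + B ∧ k * (n : ℝ) ^ 2 ≤ (A.card : ℝ)) ∧
    (∀ n : ℕ, 1 ≤ n → IsGreatest (sizes n) (c n) ∧
      (n : ℝ) ^ 2 / 968 ≤ (c n : ℝ) ∧ (c n : ℝ) ≤ (n : ℝ) ^ 2) ∧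
    ¬ Tendsto (fun n : ℕ => (c n : ℝ) / (n : ℝ) ^ 2) atTop (𝓝 0) := by
  have key : ∀ n : ℕ, 1 ≤ n → IsGreatest (sizes n) (c n) ∧
      (n : ℝ) ^ 2 / 968 ≤ (c n : ℝ) ∧ (c n : ℝ) ≤ (n : ℝ) ^ 2 := by
    intro n hn
    obtain ⟨A, B, h1, h2, h3, h4⟩ := exists_sets n hn
    have hne : (sizes n).Nonempty := ⟨_, A, B, h1, h2, h3, rfl⟩
    have hmem : c n ∈ sizes n := Nat.sSup_mem hne (bddAbove n)
    refine ⟨⟨hmem, fun t ht => le_csSup (bddAbove n) ht⟩, ?_, ?_⟩
    · have h5 : A.card ≤ c n := le_csSup (bddAbove n) ⟨A, B, h1, h2, h3, rfl⟩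
      have h6 : (A.card : ℝ) ≤ (c n : ℝ) := by exact_mod_cast h5
      linarith
    · obtain ⟨A', B', g1, -, g3, g4⟩ := hmem
      have : c n ≤ n * n := by
        rw [← g4]
        calc A'.card ≤ (B' + B').card := card_le_card g3
          _ ≤ B'.card * B'.card := card_add_le
          _ = n * n := by rw [g1]
      have h7 : (c n : ℝ) ≤ ((n * n : ℕ) : ℝ) := by exact_mod_cast this
      push_cast at h7
      linarith [sq (n : ℝ)]
  refine ⟨⟨1 / 968, by norm_num, exists_sets⟩, key, ?_⟩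
  intro hT
  have h1 := (hT.eventually (gt_mem_nhds (show (0 : ℝ) < 1 / 968 by norm_num))).and
    (eventually_ge_atTop 1)
  obtain ⟨n, hn1, hn2⟩ := h1.exists
  have h2 := (key n hn2).2.1
  have h3 : (0 : ℝ) < (n : ℝ) ^ 2 := by
    have : (0 : ℝ) < n := by exact_mod_cast hn2
    positivity
  rw [div_lt_iff₀ h3] at hn1
  linarith

end Run7.h185.QuadraticSizeWd
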